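import Mathlib

set_option autoImplicit false

namespace Pool.Agent.H.MP_d06690_lc

open Cardinal Ordinal Set

theorem reg {c : Cardinal.{0}} (hc : c.IsRegular) {η : Ordinal.{0}} (hη : η < c.ord)
    (g : Ordinal.{0} → Ordinal.{0}) (hg : ∀ ζ < η, g ζ < c.ord) :
    ∃ s < c.ord, ∀ ζ < η, g ζ < s := by
  refine ⟨Order.succ (bsup η fun a _ => g a), (isSuccLimit_ord hc.aleph0_le).succ_lt
    (bsup_lt_ord_of_isRegular hc (lt_ord.1 hη) hg), fun ζ h => Order.lt_succ_of_le ?_⟩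
  exact le_bsup (fun a _ => g a) ζ h

/-- recursion along a regular initial ordinal -/
theorem climb {c : Cardinal.{0}} (hc : c.IsRegular) (P : Ordinal.{0} → Ordinal.{0} → Prop)
    (h : ∀ η < c.ord, ∀ s < c.ord, (∀ ζ < η, ∃ b < s, P ζ b) → ∃ b < c.ord, P η b) :
    ∀ η < c.ord, ∃ b < c.ord, P η b := by
  intro η
  induction η using WellFoundedLT.induction with
  | _ η ih =>
    intro hη
    choose! g g1 g2 using fun ζ (h : ζ < η) => ih ζ h (h.trans hη)
    obtain ⟨s, s1, s2⟩ := reg hc hη g g1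
    exact h η hη s s1 fun ζ hζ => ⟨g ζ, s2 ζ hζ, g2 ζ hζ⟩

theorem closure_pt {c : Cardinal.{0}} (hc : c.IsRegular) (h0 : ℵ₀ < c)
    (β : Ordinal.{0} → Ordinal.{0}) (hβ : ∀ a < c.ord, β a < c.ord) {a : Ordinal.{0}}
    (ha : a < c.ord) : ∃ d < c.ord, a < d ∧ ∀ x < d, β x < d := by
  have hl := isSuccLimit_ord hc.aleph0_le
  choose! nx n1 n2 using fun η (h : η < c.ord) => reg hc h β fun ζ hζ => hβ ζ (hζ.trans h)
  let s : ℕ → Ordinal.{0} := fun n => nx^[n] (Order.succ a)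
  have hs : ∀ n, s (n + 1) = nx (s n) := fun n => Function.iterate_succ_apply' _ _ _
  have s1 : ∀ n, s n < c.ord := by
    intro n
    induction n with
    | zero => exact hl.succ_lt ha
    | succ n ih => rw [hs]; exact n1 _ ih
  refine ⟨⨆ n, s n, iSup_lt_ord_of_isRegular hc (by simpa using h0) s1,
    (Order.lt_succ a).trans_le (Ordinal.le_iSup s 0), fun x hx => ?_⟩
  obtain ⟨n, hn⟩ := Ordinal.lt_iSup_iff.1 hx
  exact (n2 _ (s1 n) x hn).trans_le (hs n ▸ Ordinal.le_iSup s (n + 1))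

theorem small {c : Cardinal.{0}} (hc : c.IsRegular) (S : Set Ordinal.{0})
    {γ : Ordinal.{0}} (hγ : γ < c.ord * c.ord) (f : Ordinal.{0} → Ordinal.{0})
    (f1 : ∀ x ∈ S, ∀ y ∈ S, x < y → f x < f y) (f2 : ∀ x ∈ S, f x < γ) :
    ∃ a0 < c.ord, ∀ a < c.ord, a0 ≤ a → ∃ s < c.ord, ∀ b < c.ord, c.ord * a + b ∈ S → b < s := by
  have hl := isSuccLimit_ord hc.aleph0_le
  by_contra hn
  push Not at hn
  have key := climb hc (fun ξ a => ∀ x ∈ S, c.ord * a ≤ x → c.ord * ξ ≤ f x) (by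
    intro ξ hξ s hs ih
    obtain ⟨a, a1, a2, a3⟩ := hn s hs
    refine ⟨Order.succ a, hl.succ_lt a1, fun x hx hx' => ?_⟩
    have step : ∀ ζ < ξ, c.ord * ζ + c.ord ≤ f x := by
      intro ζ hζ
      obtain ⟨a', b1, b2⟩ := ih ζ hζ
      have := climb hc (fun η b => c.ord * a + b ∈ S ∧ c.ord * ζ + η ≤ f (c.ord * a + b)) (by
        intro η hη t ht ih'
        obtain ⟨b, c1, c2, c3⟩ := a3 t ht
        refine ⟨b, c1, c2, ?_⟩
        rcases eq_or_ne η 0 with rfl | h0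
        · rw [add_zero]
          exact b2 _ c2 ((mul_le_mul_right (b1.le.trans a2) _).trans le_self_add)
        · rw [Ordinal.add_le_iff h0]
          intro d hd
          obtain ⟨b', d1, d2, d3⟩ := ih' d hd
          exact d3.trans_lt (f1 _ d2 _ c2 ((add_lt_add_iff_left _).2 (d1.trans_le c3))))
      rw [Ordinal.add_le_iff hl.ne_bot]
      intro η hη
      obtain ⟨b, d1, d2, d3⟩ := this η hη
      refine d3.trans_lt (f1 _ d2 _ hx (lt_of_lt_of_le ?_ hx'))
      rw [mul_succ]; exact (add_lt_add_iff_left _).2 d1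
    by_contra hlt
    rw [not_le] at hlt
    have h1 := step _ ((Ordinal.div_lt hl.ne_bot).2 hlt)
    exact absurd (Ordinal.lt_mul_div_add (f x) hl.ne_bot) (not_lt.2 h1))
  obtain ⟨ξ, h1, h2⟩ := (lt_mul_iff_of_isSuccLimit hl).1 hγ
  obtain ⟨a, a1, a2⟩ := key ξ h1
  obtain ⟨a', b1, b2, b3⟩ := hn a a1
  obtain ⟨b, -, c2, -⟩ := b3 0 hl.pos
  have := a2 _ c2 ((mul_le_mul_right b2 _).trans le_self_add)
  exact absurd (h2.trans_le this) (not_lt.2 (f2 _ c2).le)

def Sh (w x y : Ordinal.{0}) : Prop := x / w < x % w ∧ y / w = x % w ∧ y / w < y % w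

def gr (w : Ordinal.{0}) (V : Set Ordinal.{0}) : SimpleGraph V where
  Adj x y := Sh w x y ∨ Sh w y x
  symm := ⟨fun _ _ h => h.symm⟩
  loopless := ⟨fun x h => by rcases h with h | h <;> exact h.1.ne h.2.1⟩

theorem col {I : Type} [Nonempty I] (w : Ordinal.{0}) (h : Ordinal.{0} → I → Bool)
    (S : Set Ordinal.{0}) (hS : ∀ x ∈ S, x / w < x % w → h (x / w) ≠ h (x % w)) :
    ∃ c : Ordinal.{0} → I × Bool, ∀ x ∈ S, ∀ y ∈ S, Sh w x y → c x ≠ c y := by
  have : ∀ x, ∃ i, x ∈ S → x / w < x % w → h (x / w) i ≠ h (x % w) i := by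
    intro x
    by_cases c : x ∈ S ∧ x / w < x % w
    · obtain ⟨i, hi⟩ := Function.ne_iff.1 (hS x c.1 c.2)
      exact ⟨i, fun _ _ => hi⟩
    · exact ⟨Classical.arbitrary I, fun a b => absurd ⟨a, b⟩ c⟩
  choose i hi using this
  refine ⟨fun x => (i x, h (x / w) (i x)), fun x hx y _ hxy e => ?_⟩
  simp only [Prod.mk.injEq] at e
  refine hi x hx hxy.1 ?_
  rw [e.2, ← e.1, hxy.2.1]

theorem inj {K : Type} [Nonempty K] {d : Ordinal.{0}} (h : d.card ≤ #K) :
    ∃ e : Ordinal.{0} → K, InjOn e (Iio d) := by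
  obtain ⟨e⟩ : Nonempty (Iio d ↪ K) := by
    rw [← Cardinal.lift_mk_le', Cardinal.mk_Iio_ordinal, Cardinal.lift_lift]
    exact Cardinal.lift_le.2 h
  classical
  refine ⟨fun x => if h : x < d then e ⟨x, h⟩ else Classical.arbitrary K, fun x hx y hy hxy => ?_⟩
  simp only [dif_pos (show x < d from hx), dif_pos (show y < d from hy)] at hxy
  exact congrArg Subtype.val (e.injective hxy)

end Pool.Agent.H.MP_d06690_lc
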